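import Pool.Agent.Lib.MP_9488bf_co.H8Main

namespace Pool.Agent.Results.MP_9488bf_co.AcuteTrapezoids

open Pool.Agent.Lib.MP_5a3ebe_gt

/-- A Jordan curve that is seen under an angle of at most `β` from two of its points and is tame
near these two points (and arbitrary elsewhere) inscribes every isosceles trapezoid with base
angle `β`; for `β = π / 2`, every rectangle. -/
theorem result (ρ β : ℝ) (hρ : 0 < ρ) (hβ : 0 < β) (hβ' : β ≤ Real.pi / 2)
    (hρβ : 2 * (ρ * Real.cos β) < 1)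
    (γ : Circle → ℂ) (hγ : Continuous γ) (hinj : Function.Injective γ) (a b : ℝ)
    (hab : a < b) (hba : b < a + 2 * Real.pi)
    (hA : ∀ s t, Real.cos β * (‖γ s - γ (Circle.exp a)‖ * ‖γ t - γ (Circle.exp a)‖) ≤
      inner ℝ (γ s - γ (Circle.exp a)) (γ t - γ (Circle.exp a)))
    (hB : ∀ s t, Real.cos β * (‖γ s - γ (Circle.exp b)‖ * ‖γ t - γ (Circle.exp b)‖) ≤
      inner ℝ (γ s - γ (Circle.exp b)) (γ t - γ (Circle.exp b)))
    (ta : FiniteVarAt (fun θ => γ (Circle.exp θ)) a ∨ SmallAreaAt (fun θ => γ (Circle.exp θ)) a)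
    (tb : FiniteVarAt (fun θ => γ (Circle.exp θ)) b ∨ SmallAreaAt (fun θ => γ (Circle.exp θ)) b) :
    ∃ z w : ℂ, w ≠ 0 ∧ z ∈ Set.range γ ∧ z + w ∈ Set.range γ ∧
      z + w - ρ * Complex.exp (-(β * Complex.I)) * w ∈ Set.range γ ∧
      z + ρ * Complex.exp (β * Complex.I) * w ∈ Set.range γ := by
  have hπ := Real.pi_pos
  have hc : 0 ≤ Real.cos β := Real.cos_nonneg_of_mem_Icc ⟨by linarith, hβ'⟩
  have hs : 0 < Real.sin β := Real.sin_pos_of_pos_of_lt_pi hβ (by linarith)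
  have e : ((ρ * Real.cos β : ℝ) : ℂ) + (ρ * Real.sin β : ℝ) * Complex.I =
      ρ * Complex.exp (β * Complex.I) := by
    rw [Complex.exp_mul_I]; push_cast; ring
  obtain ⟨z, w, h0, h1, h2, h3, h4⟩ := Pool.Agent.Lib.MP_9488bf_co.H8.acute
    (σ := ρ * Real.cos β) (τ := ρ * Real.sin β) (by positivity) hρβ (by positivity) hc
    (by nlinarith [Real.sin_sq_add_cos_sq β])
    (by rw [e, norm_mul, Complex.norm_exp_ofReal_mul_I, Complex.norm_real,
      Real.norm_of_nonneg hρ.le, mul_one, mul_comm]) hγ hinj hab hba hA hB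
    (ta.elim (H46.smallArea_of_var (hγ.comp Circle.exp.continuous)) id)
    (tb.elim (H46.smallArea_of_var (hγ.comp Circle.exp.continuous)) id)
  refine ⟨z, w, h0, h1, h2, ?_, e ▸ h4⟩
  convert h3 using 1
  rw [← neg_mul, Complex.exp_mul_I, Complex.cos_neg, Complex.sin_neg]
  push_cast
  ring

end Pool.Agent.Results.MP_9488bf_co.AcuteTrapezoids
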