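import Pool.Agent.Lib.MP_9488bf_co.Thin.Main

namespace Pool.Agent.Results.MP_9488bf_co.ThinTrapezoids

/-- Every Jordan curve inscribes all sufficiently thin isosceles trapezoids: those with height
`‖w‖` and parallel sides `s ‖w‖`, `t ‖w‖` for all `s, t < τ`; for `s = t`, rectangles. -/
theorem result (γ : Circle → ℂ) (hγ : Continuous γ) (hinj : Function.Injective γ) :
    ∃ τ : ℝ, 0 < τ ∧ ∀ s t : ℝ, 0 < s → s < τ → 0 < t → t < τ → ∃ z w : ℂ, w ≠ 0 ∧
      z + (s / 2 : ℝ) * Complex.I * w ∈ Set.range γ ∧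
      z - (s / 2 : ℝ) * Complex.I * w ∈ Set.range γ ∧
      z + w + (t / 2 : ℝ) * Complex.I * w ∈ Set.range γ ∧
      z + w - (t / 2 : ℝ) * Complex.I * w ∈ Set.range γ :=
  Pool.Agent.Lib.MP_9488bf_co.Thin.thin hγ hinj

end Pool.Agent.Results.MP_9488bf_co.ThinTrapezoids
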