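import Pool.Agent.Lib.MP_9488bf_co.H81TriC

open Set

namespace Pool.Agent.Results.MP_9488bf_co.TriangleVertices

/-- the case where `AB` is a longest side -/
theorem longest {A B C : ℂ} (h : ((C - A) / (B - A)).im ≠ 0) (h1 : ‖C - A‖ ≤ ‖B - A‖)
    (h2 : ‖B - C‖ ≤ ‖B - A‖) {γ : Circle → ℂ} (hc : Continuous γ) (hi : Function.Injective γ) :
    {p ∈ range γ | ¬∃ a b : ℂ, a ≠ 0 ∧ a * A + b ∈ range γ ∧ a * B + b ∈ range γ ∧
      a * C + b ∈ range γ ∧ (p = a * A + b ∨ p = a * B + b ∨ p = a * C + b)}.encard ≤ 2 := by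
  have hd : B - A ≠ 0 := fun e => h (by simp [e])
  have hn := norm_pos_iff.2 hd
  by_contra hlt
  obtain ⟨t, ht, h3⟩ := exists_subset_encard_eq (k := 3) (Order.add_one_le_of_lt (not_le.1 hlt))
  obtain ⟨p, q, r, pq, pr, qr, rfl⟩ := encard_eq_three.1 h3
  obtain ⟨⟨P, rfl⟩, hP⟩ := ht (a := p) (by simp)
  obtain ⟨⟨R, rfl⟩, hR⟩ := ht (a := q) (by simp)
  obtain ⟨⟨S, rfl⟩, hS⟩ := ht (a := r) (by simp)
  refine Lib.MP_9488bf_co.Tri.no_three_circle (μ := (C - A) / (B - A)) hc hi ?_ ?_ h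
    (fun e => pq (congrArg γ e)) (fun e => pr (congrArg γ e)) (fun e => qr (congrArg γ e))
    fun X hX x y z e o => ?_
  · rwa [norm_div, div_le_one hn]
  · rwa [show 1 - (C - A) / (B - A) = (B - C) / (B - A) by field_simp; ring, norm_div,
      div_le_one hn]
  · by_contra xy
    have e1 : (γ y - γ x) / (B - A) * A + (γ x - (γ y - γ x) / (B - A) * A) = γ x := by ring
    have e2 : (γ y - γ x) / (B - A) * B + (γ x - (γ y - γ x) / (B - A) * A) = γ y := by
      field_simp; ring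
    have e3 : (γ y - γ x) / (B - A) * C + (γ x - (γ y - γ x) / (B - A) * A) = γ z := by
      rw [e]; field_simp; ring
    have : ∃ a b : ℂ, a ≠ 0 ∧ a * A + b ∈ range γ ∧ a * B + b ∈ range γ ∧ a * C + b ∈ range γ ∧
        (γ X = a * A + b ∨ γ X = a * B + b ∨ γ X = a * C + b) :=
      ⟨_, _, div_ne_zero (sub_ne_zero.2 fun h => xy (hi h).symm) hd, ⟨x, e1.symm⟩, ⟨y, e2.symm⟩,
        ⟨z, e3.symm⟩, by rw [e1, e2, e3]; rcases o with rfl | rfl | rfl <;> simp⟩
    rcases hX with rfl | rfl | rfl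
    exacts [hP this, hR this, hS this]

theorem im_ne {A B C : ℂ} (h : ¬Collinear ℝ {A, B, C}) : ((C - A) / (B - A)).im ≠ 0 := by
  intro e
  rcases eq_or_ne B A with rfl | hd
  · exact h (by simpa using collinear_pair ℝ B C)
  · refine h ((collinear_iff_of_mem (mem_insert _ _)).2 ⟨B - A, fun p hp => ?_⟩)
    have := sub_ne_zero.2 hd
    rcases hp with rfl | rfl | rfl
    · exact ⟨0, by simp⟩
    · exact ⟨1, by simp⟩
    · refine ⟨((p - A) / (B - A)).re, ?_⟩
      rw [Complex.real_smul, Complex.conj_eq_iff_re.1 (Complex.conj_eq_iff_im.2 e), vadd_eq_add]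
      field_simp
      ring

/-- For every triangle `ABC` and every Jordan curve, all but at most two points of the curve are
vertices of an inscribed triangle directly similar to `ABC`. -/
theorem result (A B C : ℂ) (h : ¬Collinear ℝ {A, B, C}) (γ : Circle → ℂ) (hc : Continuous γ)
    (hi : Function.Injective γ) :
    {p ∈ Set.range γ | ¬∃ a b : ℂ, a ≠ 0 ∧ a * A + b ∈ Set.range γ ∧ a * B + b ∈ Set.range γ ∧
      a * C + b ∈ Set.range γ ∧ (p = a * A + b ∨ p = a * B + b ∨ p = a * C + b)}.encard ≤ 2 := by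
  have n1 := norm_sub_rev A B
  have n2 := norm_sub_rev B C
  have n3 := norm_sub_rev C A
  by_cases h1 : ‖C - A‖ ≤ ‖B - A‖ ∧ ‖B - C‖ ≤ ‖B - A‖
  · exact longest (im_ne h) h1.1 h1.2 hc hi
  by_cases h2 : ‖A - B‖ ≤ ‖C - B‖ ∧ ‖C - A‖ ≤ ‖C - B‖
  · refine (encard_le_encard fun p hp => ?_).trans
      (longest (im_ne (A := B) (B := C) (C := A) ?_) h2.1 h2.2 hc hi)
    · exact ⟨hp.1, fun ⟨a, b, k⟩ => hp.2 ⟨a, b, by tauto⟩⟩
    · rwa [insert_comm, pair_comm A C] at h
  · rw [not_and_or, not_le, not_le] at h1 h2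
    refine (encard_le_encard fun p hp => ?_).trans
      (longest (im_ne (A := C) (B := A) (C := B) ?_) ?_ ?_ hc hi)
    · exact ⟨hp.1, fun ⟨a, b, k⟩ => hp.2 ⟨a, b, by tauto⟩⟩
    · rwa [pair_comm, insert_comm] at h
    · rcases h1 with h1 | h1 <;> rcases h2 with h2 | h2 <;> linarith
    · rcases h1 with h1 | h1 <;> rcases h2 with h2 | h2 <;> linarith

end Pool.Agent.Results.MP_9488bf_co.TriangleVertices
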